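import Pool.Agent.H48.CYN.Proofs

namespace Pool.Agent.Results.MP_5ee2d0_ag.CalabiYauThreefolds

open Pool.Agent.H48.CYN

/-- Every nef divisor of `X` is semiample. -/
theorem result (D : Given) (x : D.P) (hx : D.Nef x) : D.SA x := by
  refine D.semiample (fun i y hy => ?_) x hx
  by_cases hi : D.Thr i
  · exact D.sa_cls i hi y ((D.thr i hi).semiample _ (D.nef_cls i hi y hy))
  · exact D.known i hi y hy

end Pool.Agent.Results.MP_5ee2d0_ag.CalabiYauThreefolds
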