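import Pool.Agent.H76.F4.Final

/-!
# Nef divisors on fourfolds with trivial canonical class (MP_5ee2d0_ag)

What the fields of the structure `Fourfold` say, and where it is published. Every field is a theorem of
the list applied to the objects named in the comment of the field, or a direct consequence (the comment
says why). A smooth projective fourfold with `K_X ~ 0` and `H^1(X, O_X) = 0` gives a term of `Fourfold` by
these theorems.

## `Num`, `Var`, `Var.Pic` (H76/F4/Var.lean)

`Var` lists the objects: Picard group, prime divisors, points, curves, degrees, `h^q`, `N^1(X)`, an ample `A`.
The definitions of nef, semiample, effective, pseudoeffective and movable are the usual ones, `line D` is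
`O_X(D)`.
* `Var.Pic`: `tors`: Matsusaka 1957, and `Pic^0 = 0`; `sect`: the divisor of a section.

## `Four`, `Model` (H76/F4/Top.lean)

* `Four`: `rr`: Hirzebruch 1956; `miyaoka`: Miyaoka 1987 (for `K_X ~ 0` also Yau 1978); `serre`: Serre duality;
  `kv`: Kawamata 1982, Viehweg 1982; `fukuda`: Fukuda 2002 (Kawamata 1985; Keel, Matsuki and McKernan 1994).
* `Model`: the end `(Y', S')` of the program for `K_Y + S`: Birkar, Cascini, Hacon and McKernan 2010; special
  termination: Fujino 2007; Kawamata 1992, Shokurov 1996; abundance for semi log canonical threefolds: Fujino
  2000 (Miyaoka; Kawamata; Keel, Matsuki and McKernan 1994). `exact`: cohomology sequence, Serre duality and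
  rational singularities (Kollár and Mori 1998, 5.22). `can`, `le`: sections and pull backs of divisors.

## `Coh`, `Img`, `Germ`, `Symbol`, `Nbhd` (H76/F4/Defs.lean)

* `Coh.Exact`: cohomology sequences of `O_(D_k)(m D)` and of the twists with the line bundles which are trivial
  on `D_k`, Serre duality (Hartshorne, Residues and Duality).
* `Coh.Cover`: Du Bois 1981; Kollár and Kovács 2010 (log canonical singularities are Du Bois); cyclic coverings.
* `Img`: theorem on formal functions, cohomology sequences over a Stein neighbourhood, product rule for the
  connecting maps, Krull's intersection theorem.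
* `Germ`: `approx`: Serre 1955, theorems A and B for coherent sheaves on a projective curve; Leray's spectral
  sequence.
* `Symbol`: Deligne 1970, 1974; Steenbrink 1977; Steenbrink and Zucker 1985; Kollár 1986; Saito 1990; Kovács
  2011; Fujino and Fujisawa 2014. `Symbol.Gen`: duality for `D → Z` and flat sections. `Symbol.Spec.residue`:
  the dualising sheaf of a seminormal curve. `Symbol.Hodge`: Griffiths 1970, Schmid 1973, Steenbrink and Zucker
  1985, Simpson 1990, Zuo 2000 (kernels of the Higgs field are seminegative).
* `Nbhd`: `zero`, `div`: local triviality of `O(b D)` over `Z`, and the cohomology sequence of the divisor of a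
  general section.

## `Pairs`, `Cls`, `BCl`, `Cur` (H60/BC/Defs4.lean)

* b-classes and their intersection numbers (`I_lin`, `symm`, `nonneg`, `gen`, `proj`): Shokurov 2003; Boucksom,
  Favre and Jonsson 2008, 2009; Boucksom, de Fernex and Favre 2012; Dang and Favre 2022.
* `nef_num`, `nd`: hard Lefschetz theorem. `amp`, `ne`, `dist`, `eff`, `pull`, `summable`: Kleiman 1966.
* `neg`: negativity lemma (Shokurov; Kollár and others 1992, 2.19; Kollár and Mori 1998, 3.39; for b-divisors
  Boucksom, de Fernex and Favre 2012).
* `index`: Hodge index theorem (Khovanskii, Teissier; Gromov 1990; Lazarsfeld 2004, 1.6; Dang and Favre 2022).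
* `min`: Boucksom, de Fernex and Favre 2012 (the sum of two ideals).
* `compact`: Boucksom, Favre and Jonsson 2009, Dang and Favre 2022, with the semicontinuity of the asymptotic
  multiplicities (Boucksom 2004, Nakayama 2004).
* `siu`: Siu 1993 (Lazarsfeld 2004, 2.2.15) and the divisorial Zariski decomposition (Boucksom 2004, Nakayama
  2004).
* `Cur.cur`: weak compactness, semicontinuity of Lelong numbers (Siu 1974, Demailly 1993). `Cur.nef`: Demailly
  1992; Demailly, Ein and Lazarsfeld 2000; Demailly, Peternell and Schneider 2001.

## `LastM`, `LastRes`, `Sys` (H15/XF/Defs.lean), `Quasi`, `LogRes`, `Count`, `Prog` (H33/TF/Data.lean)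

* `LogRes`, `Count`: Hironaka 1964; Demailly 1992; Demailly, Ein and Lazarsfeld 2000 (`approx`); Kollár and
  Mori 1998, 2.29 to 2.31 (discrepancies of blow ups).
* `Quasi`: Jonsson and Mustaţă 2012, 2014, Xu 2020; openness (Guan and Zhou 2015).
* `Sys.prog`, `Prog`, `LastM`: Birkar, Cascini, Hacon and McKernan 2010 (1.4.3, extraction; flips); Kawamata 1984,
  Kollár 1984 (cone theorem); Kawamata 1991 (lengths); negativity lemma; Kawamata, Matsuda and Matsuki 1987,
  5-1-15 to 5-1-17 (homology of flips); Reid 1983 (terminal singularities in codimension two).
* `LastRes.rr`: Hirzebruch 1956. `LastRes.dps`: Skoda 1972; Demailly, Peternell and Schneider 2001.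

## `Orders`, `Functions`, `Link`, `Kod`, `Plane`, `Pencils` (H60/PF/Defs.lean)

* `Orders`: the orders of rational functions along prime divisors (Hartshorne 1977, II.6); `curve`: Lüroth,
  Bertini (the fibres of `g`).
* `Plane`: Hironaka 1964. `fib`: Bauer, Campana, Eckl, Kebekus, Peternell, Rams, Szemberg and Wotzlaw 2002,
  Lehmann 2014; Raynaud and Gruson 1971 (flattening).

## `Var.Forms` (H76/F4/Forms.lean), `Fourfold` (H76/F4/FDefs.lean)

* `Forms`: `cp`: Campana and Păun 2019; `wedge`: exterior products; `dps`: Skoda 1972; Demailly, Peternell and
  Schneider 2001 (hard Lefschetz theorem for pseudoeffective line bundles).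
* `Fourfold`: `rl_A`, `int`: the intersection numbers on `X` are those of the b-classes; `mov`: Kleiman 1966.

## What is proved, and not assumed

* Sections from Euler characteristics: `χ(m x)` is a polynomial with nonnegative coefficients, `χ(O_X) ≥ 2`,
  `H^3(O_X) = 0`; `x^3 ≢ 0` gives `h^0(m x) ≥ 2`.
* Divisors: the form `x.y.A^2` on `N^1(X)` is nondegenerate and hyperbolic; the divisorial Zariski decomposition
  of pseudoeffective classes; a form with values in `m x` for infinitely many `m` gives a section of a multiple
  of `x`, or infinitely many prime divisors (the determinants of the spans); numerical dimension one.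
* b-classes: intersection numbers are continuous where needed; the strict Hodge index theorem; minimal and
  extremal b-divisors `y` with `x - y` nef exist; `(x - y)^2 ≡ 0` for extremal `y` (Siu), `y` is unique on its ray.
* Currents: the log canonical threshold is positive and attained; there are only finitely many divisors with
  small log discrepancy; convexity and continuity of the threshold functions, so that a current with a
  quasi-monomial centre which is not divisorial is not extremal.
* Termination: an infinite program would have infinitely many divisors of log discrepancy below a bound which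
  decreases (the difficulty function, by counting the blow ups of surfaces).
* `y` lives on one model. If it is rational then the Riemann-Roch residue gives sections of `Ω^p(m x)` for
  infinitely many `m`; near the point `y` the nef classes form a rational polyhedron (from the cone theorem and the
  lengths), of which the extremal `y` is a minimal point, so `y` is rational.
* Pencils: infinitely many prime divisors `D` with `x^2.D = 0` give rational functions (counting dimensions,
  Picard number), hence a pencil, or a plane; in both cases a multiple of `x` has a section.
* An effective nef divisor with `x^3 ≡ 0` has a second section: all classes on the infinitesimal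
  neighbourhoods `D_k` extend (Serre's theorem for the direct images is proved from the product rule, Krull's
  theorem and the global sections; the first obstruction is a symbol in the kernel of the Higgs field; the
  covering trick; duality), so sections of `O_D(a G')` lift to `Y'`.
-/

namespace Pool.Agent.Results.MP_5ee2d0_ag.Fourfolds

open Pool.Agent.H76.F4

/-- `X` is a smooth projective fourfold with `K_X ~ 0` and `H^1(X, O_X) = 0`. Every nef line bundle on `X` is
semiample. -/
theorem result {r : ℕ} (F : Fourfold r) (x : F.X.P) (hx : F.X.Nef x) : F.X.Semiample x :=
  F.semiample x hx

end Pool.Agent.Results.MP_5ee2d0_ag.Fourfolds
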