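import Pool.Agent.H79.B.Main

/-!
# Nef classes on hyperkaehler manifolds with second Betti number at least five

`SClass n Lam` (file `Pool/Agent/H79/B/Multi`) and `DefClass n Lam` (file `Pool/Agent/H79/B/Arith`)
are deformation classes of hyperkaehler manifolds of dimension `2n` with `b_2 >= 5`; their fields are
published facts. Nothing is assumed on the deformation type, no fibration and no semipositive metric
is given. The proofs are written for structures with the same fields (`H83/HN`, `H83/HP`, `H36/HP`,
`H46/P`, `H46/S`, `H13/HN`); `H79/B/Conv` carries every field over.

PROOF.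
* Lattice part (`H83/HN/LAT`, `H47/P/DENS`, `H41/P/MEMB`, `H41/S/Spec`). Let `L` be nef and isotropic
  on `X`. Near `X` there are members `Y` with rational period such that no wall is orthogonal to `L`;
  `L` is nef on `Y`, the prime divisors orthogonal to `L` are multiples of `L`, and `Y` has a parabolic
  automorphism `g`: `g^*A = A + f b + c L`, `g^*b = b + e L`, `g^*L = L`, `A` ample, `ef = 2c > 0`.
* Lelong numbers (`H83/HP/Lambda`). For Kaehler and closed forms `om`, `be`, `th` in `A`, `b`, `L`
  one has `(g^k)^* om = om + kf be + k^2 c th + ddc V_k` for all integers `k`, and `V_k <= C k^2`, as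
  the volume of `sigma` is invariant. For every `g`-invariant mean the sequence of the means of `V_k`
  is a cubic polynomial in `k`, so by the bounds for both signs of `k` a quadratic one. If some
  Lelong number of the minimal current in the class `L` were positive, Hartogs' lemma on the closed
  invariant set of these points would give a contradiction.
* Every dimension (`H36/HP`, `H57/HP/Lim`): the Euler characteristic of `mL` is `n + 1`, so by
  Demailly, Peternell and Schneider there are sections of `Omega^p (mL)` for all `m > 0`. A section
  which depends on the others is exchanged with one of them; the two exterior products are sections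
  of `det F + S L` and `det F + S' L`, with `S < S'`, and as the slope of `F` is not positive both
  divisors are orthogonal to `L`: so they are multiples of `L`, and the second one is not zero. As
  `m` is bounded, the section exists also on `X`.
* Sections of a primitive `L`, `n = 2, 3` (`H46/S/{H3,Cross,Sect}`). Let `E` be the smallest saturated
  subsheaf of the tangent bundle such that the parallel multivector fields with values in the `kL`,
  `k > 0`, are sections of `Lambda^p E + kL`, and `r` its rank. Then `H^p(kL) = H^0(Lambda^p E + kL)`
  and `det E = - t L` with an integer `t > 0` (slopes and the horoball of ample classes), and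
  `r <= n`, as `H^0(det E + tL)` is not zero. A section of `Lambda^p E + L` generates a saturated line,
  so two sections which are dependent over the function field are proportional. So
  `h^2(L) <= 1` if `r <= 2`; if `r = 3` the cross product with one bivector has values in
  `H^0(E + (2-t) L)` and `h^2(L) <= 1 + h^1(L)`. As the Euler characteristic of `L` is `n + 1`,
  one obtains `h^0(L) >= n`.
* Fourfolds (`H46/P/Four`): `L` is semiample on `Y` by the theorem of Gongyo and Matsumura, and on
  `X` by Matsushita's theorem. Sixfolds (`H67/S/Alg`, `H46/S/Fiba`): the divisors of the sections of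
  the primitive class are prime, so three independent sections are algebraically independent. If the
  Iitaka dimension were two, on a very general fibre of the Iitaka fibration the canonical class of
  the log minimal model would be a multiple of `L` by the Hodge index theorem, so semiample.
* All dimensions, `b_2 >= 4n + 3`. There is a member `Y` with rational period on which `L` is nef, no
  wall of `Y` is orthogonal to `L`, and a group `Z^(4n-1)` of automorphisms fixes `L` (`H83/HN/LAT*`).
  Suppose that the Iitaka dimension `k` of `L` on `Y` is less than `n`. The group acts on the Iitaka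
  base through a finite group (recurrence and Kronecker's theorem, `H77/HN`), and every rational
  function invariant under one of its elements of infinite order comes from the base
  (`H35/HN/INVF`), so the orbits of a very general point are dense in the fibre `W` (Amerik-Campana).
  The components of the fixed point sets are isotropic (`H83/HN/Iso`), so in the residue disc of such
  a point the orbit directions and the Hamiltonian fields `X_1, .., X_k` of functions of the base span
  at most `n` dimensions (`H79/HN/COI`, `H85/HN/RKJ`). Sections of size `m (A + R^2 L)` are spanned by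
  products of translates of sections of `A` (`H74/HN/GEN*`); their restrictions to `W` have rank at
  least `c m^(2n-k) R^(2n-2k)` (`H61/HN/NLOW`); by a zero estimate (`H2/HN/ZEJ`, `NVJ`) some minor of
  the matrix of their Taylor coefficients at points `g x`, `|g| <= C R`, is not zero (`H8/HN/MinJ`),
  also at an algebraic point of the disc, where its `p`-adic value is very small (`H2/HN/DetJ`);
  heights on orbits grow at most like `|g|^2 (|g|^eps + h)` (`H49/HN`), and the product formula
  (`H57/HN/PFJ`, `H13/HN/ALGJ`) gives `m^((2n-k)/n) R^((2n-2k)/n) <= C m R^(2+eps)`, a contradiction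
  for `m` a suitable power of `R`.
-/

namespace Pool.Agent.Results.MP_5ee2d0_ag.NefOnHyperkaehler

open Pool.Agent.H79.B

/-- `X` is a projective hyperkaehler manifold of dimension `2n`, `n >= 2`.
(i) If `n` is `2` or `3` and `b_2 >= 5` then every nef class on `X` is semiample.
(ii) If `b_2 >= 5`, `L` is nef and `q(L) = 0` then `H^0(mL)` is not zero for some `m` with
`0 < m <= bnd n`.
(iii) If moreover `n` is `2` or `3` and `L` is primitive, then `h^0(L) >= n`.
(iv) If `b_2 >= 4n + 3` then every nef class on `X` is semiample. -/
theorem result :
    (∀ n : ℕ, n = 2 ∨ n = 3 → ∀ (Lam : Type) [AddCommGroup Lam] (C : SClass n Lam) (X : C.Mem),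
      (C.M X).Nef ⊆ (C.M X).Semiample) ∧
    (∀ n : ℕ, 2 ≤ n → ∀ (Lam : Type) [AddCommGroup Lam] (C : SClass n Lam) (X : C.Mem),
      ∀ L ∈ (C.M X).Nef, C.q L L = 0 → ∃ m : ℕ, 0 < m ∧ m ≤ bnd n ∧ (C.M X).Eff (m • L)) ∧
    (∀ n : ℕ, n = 2 ∨ n = 3 → ∀ (Lam : Type) [AddCommGroup Lam] (C : SClass n Lam) (X : C.Mem),
      ∀ L ∈ (C.M X).Nef, C.q L L = 0 → L ≠ 0 → (∀ (m : ℕ) (x : Lam), L = m • x → m = 1) →
        n ≤ dmV ((C.M X).Sec L)) ∧
    ∀ n : ℕ, 2 ≤ n → ∀ (Lam : Type) [AddCommGroup Lam] (C : DefClass n Lam),
      4 * n + 3 ≤ Module.finrank ℤ Lam → ∀ X : C.Mem, (C.M X).Nef ⊆ (C.M X).Semiample :=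
  ⟨fun _ hn _ _ C X => semiample hn C X, fun _ hn _ _ C X _ hL hLL => effective hn C X hL hLL,
    fun _ hn _ _ C X _ hL hLL hL0 hp => le_h0 hn C X hL hLL hL0 hp,
    fun _ hn _ _ C hr X => semiample_of_rank hn C hr X⟩

end Pool.Agent.Results.MP_5ee2d0_ag.NefOnHyperkaehler
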