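import Pool.Agent.H51.LZ.Stab2
import Pool.Agent.H36.LZ.Cmb
import Pool.Agent.H36.LZ.Odd
import Pool.Agent.H9.LZ.Lel
import Pool.Agent.H15.SK.Exp

/-!
# Unipotent automorphisms of compact complex manifolds with trivial canonical bundle

`X` is a compact connected complex manifold of dimension `n` with a nowhere vanishing holomorphic
`n`-form, `g` an automorphism of `X`, and `T_0, .., T_d` are closed real (1,1)-currents with
continuous local potentials, `T_0 ≥ 0` (for instance a Kaehler form), such that
`g^* T_j = T_j + T_(j+1) + dd^c a_j` for `j < d` and `g^* T_d = T_d + dd^c a_d`, `a_j` continuous: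
`g^*` acts unipotently on the classes generated by the class of `T_0`. (If `X` is projective, some
power of every automorphism of entropy zero is of this kind, `T_0` in the class of an ample divisor;
the class of `T_d` is then, up to a factor, the limit of the classes of `(g^k)^* T_0 / k^d`, so it is
the class of a nef divisor.) Then the class of `T_d` contains a closed positive current
`T_d + dd^c φ` which is invariant under all automorphisms `h` of `X` which preserve the class of
`T_d` (for instance under `g`), has minimal singularities among all closed positive currents of the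
class, and all Lelong numbers of which are zero; all multiplier ideals of the multiples of `φ` are
trivial. Along the orbits of `g` the potential `φ` changes at most logarithmically in the time (if
the class of `T_d` contains a smooth semipositive form, as it must for a semiample divisor, `φ` is
bounded).

(Outside of this file: for a line bundle on a projective manifold with trivial canonical bundle and
Euler characteristic of the structure sheaf not zero, a metric with positive curvature and trivial
multiplier ideals is the hypothesis of theorems of Verbitsky and of Lazic and Peternell, by which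
some multiple is effective, and of Gongyo and Matsumura, by which it is semiample in dimension at
most four. Nothing of this is used or proved here.)

An example of the hypotheses, with `T_2` not zero: `Pool/Agent/H84/LZ/TorusEx.lean`.

PROOF. For all integers `k` one has `(g^k)^* T_0 = sum_j C(k,j) T_j + dd^c V_k` with
`V_(k+1) = V_k o g + sum_j C(k,j) a_j` (`H51/LZ/{Pot,Vk}`). The `n`-form gives a volume `μ` which is
invariant under all automorphisms (`H78/LZ/Vol`, `H15/SK/Vol`), and we may assume that
`∫ a_j dμ = 0`, so `∫ V_k dμ = 0`. As `V_k` is quasi-plurisubharmonic, `V_k ≤ C (1 + |k|)^d` for `k`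
of both signs (`H36/LZ/Ball`, `H51/LZ/Gro`). Put `φ₀(x) = limsup V_k(y) / C(k,d)` for
`(k,y) → (∞,x)`. This relaxed upper limit is upper semicontinuous, and `T_d`-plurisubharmonic, as
discs may be translated in charts (`H51/LZ/{MP,LG,Ch,Lim,Rl}`). If `d` is odd, the same limit for
`k → -∞` is `(-T_d)`-plurisubharmonic, so the sum of the two is constant, `φ₀` is continuous and
`T_d + dd^c φ₀` is zero (`H36/LZ/Odd`, `H15/SK/Sum`). Let `d` be even. For every invariant mean `I`
on an orbit, and every invariant probability measure, `I(V_k) = sum_j C(k,j+1) I(a_j)` for all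
integers `k`; for `k → -∞` the upper bound and `d` even give `I(a_d) ≥ 0`, so
`I(V_k) ≥ - C C(k,d)` for `k ≥ d`. So every nonempty closed set `K` with `g(K) ⊆ K` contains a point
with `φ₀ ≥ - C` (`H51/LZ/Core`), and Fatou's lemma gives the bound for invariant probability
measures (`H89/LZ/Fatou`). If the Lelong number of `φ₀` at `x` were positive, the maximum principle
on annuli in complex lines would give `φ₀ = -∞` on the closure of the orbit of `x` (`H9/LZ/Lel`), a
contradiction. Let `φ` be the upper semicontinuous regularization of the supremum of all `ψ` with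
`T_d + dd^c ψ ≥ 0` the mean value of which (the infimum of the `μ`-integrals of the continuous
majorants) is at most zero. If `h` is an automorphism with `h^* T_d = T_d + dd^c b` and
`c = ∫ b dμ`, then this class of functions is invariant under `ψ ↦ b - c + ψ o h`, and it is bounded
above; so `φ` has (1), (2), (3), and `φ₀ ≤ φ + M` gives (4), (6), (7) (`H36/LZ/{Usc,Min,Fin}`,
`H15/SK/{Min,Stab}`). Near a point of Lelong number zero there are a small ball and a point of it at
which `φ` is larger than its supremum on the ball minus `δ`; an estimate on complex lines through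
that point, by logarithmic potentials and the maximum principle, shows that `exp (- φ / δ)` is
integrable on a smaller ball (`H36/LZ/{Plane,Kernel}`, `H15/SK/*`). For the last statement let `S_l`
be the Birkhoff sums of `a_d - c` (`S_(-l) = - S_l o g^(-l)`). The upper bounds for `V_k`, `V_(-k)`
say that the means of `S_l(x)`, with weights `C(k-1-l,d-1)`, over `0 ≤ l < k`, and similar means over
`-k ≤ l ≤ 0`, are at most a constant, for all `x`. If `D(N)` is the supremum of all `S_l(x)`,
`|l| ≤ N`, and `S_h(x)` is close to `D(2N)`, then `S_l(x) = S_h(x) - S_(h-l)(g^l x)` is at least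
`- ε` for `l` between `0` and `2h`, and at least `S_h(x) - D(N)` for a positive proportion of them,
so that `D(2N) ≤ D(N) + C` (`H51/LZ/{Orb,Log,Stab2}`, `H36/LZ/Cmb`).
-/

set_option autoImplicit false

open Set Filter Topology Metric MeasureTheory
open scoped Manifold ENNReal

namespace Pool.Agent.Results.MP_5ee2d0_ag.ZeroLelong

open Pool.Agent.H51.LZ

theorem result (n d : ℕ) (X : Type) [TopologicalSpace X] [T2Space X]
    [CompactSpace X] [ConnectedSpace X] [ChartedSpace (Cn n) X] [IsManifold 𝓘(ℂ, Cn n) 1 X]
    [MeasurableSpace X] [BorelSpace X] (Ω : VolumeForm n X) (g : X ≃ₜ X)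
    (hg : MDifferentiable 𝓘(ℂ, Cn n) 𝓘(ℂ, Cn n) g)
    (hg' : MDifferentiable 𝓘(ℂ, Cn n) 𝓘(ℂ, Cn n) g.symm) (T : Currents n X)
    (hpos : ∀ p, Psh n (T.V p) (fun x => (T.u 0 p x : EReal)))
    (a : ℕ → X → ℝ) (ha : ∀ j, Continuous (a j))
    (hrel : ∀ j < d, ∀ p q, Pluriharmonic n (T.V p ∩ g ⁻¹' T.V q)
      (fun x => T.u j q (g x) - T.u j p x - T.u (j + 1) p x - a j x))
    (hrel_top : ∀ p q, Pluriharmonic n (T.V p ∩ g ⁻¹' T.V q)
      (fun x => T.u d q (g x) - T.u d p x - a d x)) :
    ∃ (φ : X → EReal) (C : ℝ), 0 ≤ C ∧
      (∀ p, Psh n (T.V p) (fun x => (T.u d p x : EReal) + φ x)) ∧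
      (∀ h : X ≃ₜ X, MDifferentiable 𝓘(ℂ, Cn n) 𝓘(ℂ, Cn n) h →
        MDifferentiable 𝓘(ℂ, Cn n) 𝓘(ℂ, Cn n) h.symm → ∀ b : X → ℝ, Continuous b →
        (∀ p q, Pluriharmonic n (T.V p ∩ h ⁻¹' T.V q)
          (fun x => T.u d q (h x) - T.u d p x - b x)) →
        ∃ c : ℝ, ∀ x, φ x = ((b x - c : ℝ) : EReal) + φ (h x)) ∧
      (∀ ψ : X → EReal, (∀ p, Psh n (T.V p) (fun x => (T.u d p x : EReal) + ψ x)) →
        ∃ M : ℝ, ∀ x, ψ x ≤ φ x + (M : EReal)) ∧
      (∀ x, ZeroLelongAt n φ x) ∧
      (∀ x, ∀ e ∈ atlas (Cn n) X, x ∈ e.source → ∀ t : ℝ, ∃ r : ℝ, 0 < r ∧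
        closedBall (e x) r ⊆ e.target ∧
        ∫⁻ z in ball (e x) r, EReal.exp (-((t : EReal) * φ (e.symm z))) < ⊤) ∧
      (∀ K : Set X, IsClosed K → K.Nonempty → MapsTo g K K → ∃ x ∈ K, ((-C : ℝ) : EReal) ≤ φ x) ∧
      (∀ ν : Measure X, IsProbabilityMeasure ν → MeasurePreserving g ν ν →
        ∫⁻ x, (-(φ x)).toENNReal ∂ν ≤ ENNReal.ofReal C) ∧
      ∀ (k : ℕ) (x : X), φ (g^[k] x) ≤ φ x + ((C * (1 + Real.log (k + 1)) : ℝ) : EReal) ∧
        φ x ≤ φ (g^[k] x) + ((C * (1 + Real.log (k + 1)) : ℝ) : EReal) := by
  have hLEL : OrbitClosure n X := fun φ V u hV hp hu hpsh g hg hg' A hA x hx =>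
    Pool.Agent.H9.LZ.bot_on_closure hV hp hu hpsh g hg hg' hA hx
  have hodd : OddCase n X := fun μ hprob hsup T d hd g hgμ hg hg' hpos hzero a ha hrel =>
    Pool.Agent.H36.LZ.odd_case hsup hd hgμ hg hg' hpos hzero ha hrel
  have hlog : LogBound := fun S h0 hs B hB d hd A hP hN =>
    Pool.Agent.H36.LZ.log_bound h0 hs hB hd hP hN
  obtain ⟨φ, C, h0, h1, h2, hmin, h3, h4, h5, h6⟩ :=
    main_log hLEL hodd hlog Ω d g hg hg' T hpos a ha hrel hrel_top
  exact ⟨φ, C, h0, h1, h2, hmin, h3, fun x e he hxe t =>
    Pool.Agent.H15.SK.exp_integrable_local (T.isOpen_V x) (T.cont d x) (h1 x) (T.mem_V x) he hxe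
      (h3 x) t, h4, h5, h6⟩

end Pool.Agent.Results.MP_5ee2d0_ag.ZeroLelong
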